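import Pool.Agent.Lib.MP_91a79a_co.Main

/-!
MP_91a79a_co: for infinitely many `n` there are `n` points in the plane (three of them may be
collinear) and a triangulation of them which needs at least `n / 31` simultaneous flips to reach
any Hamiltonian triangulation.
-/

noncomputable section

namespace Pool.Agent.Results.MP_91a79a_co.LinearFlips

open MP91a79a

/-- Negated form of Q1 with `c = 1/31`.  The triangulation `T` is moreover strict: the only points
of `P` in a closed triangle of `T` are its vertices. -/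
theorem result :
    ∀ n₀ : ℕ, ∃ n ≥ n₀, ∃ (P : Finset Pt) (T : Finset (Finset Pt)),
      P.card = n ∧ IsTriangulation P T ∧
      (∀ t ∈ T, ∀ p ∈ P, p ∈ convexHull ℝ (t : Set Pt) → p ∈ t) ∧
      ∀ (k : ℕ) (T' : Finset (Finset Pt)), Reach P k T T' → (graph P T').IsHamiltonian →
        (n : ℝ) / 31 ≤ k := by
  intro n₀
  obtain ⟨K, hK1, hK2⟩ : ∃ K : ℕ, n₀ ≤ K ∧ 220 ≤ K := ⟨n₀ + 220, by omega, by omega⟩
  have hN : 0 < 2 * K + 14 := by omega
  refine ⟨15 * (2 * K + 14) + 10, by omega, totP (2 * K + 14), totT (2 * K + 14),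
    totP_card hN, (tot_stri hN).toIs, (tot_stri hN).strict, ?_⟩
  intro k T' hr hH
  have h1 : K ≤ k := by
    by_contra hcon
    exact lower_bound K hr (by omega) hH
  have h2 : 15 * (2 * K + 14) + 10 ≤ 31 * k := by omega
  have h3 : ((15 * (2 * K + 14) + 10 : ℕ) : ℝ) ≤ ((31 * k : ℕ) : ℝ) := by exact_mod_cast h2
  rw [div_le_iff₀ (by norm_num)]
  calc ((15 * (2 * K + 14) + 10 : ℕ) : ℝ) ≤ ((31 * k : ℕ) : ℝ) := h3
    _ = k * 31 := by push_cast; ring

end Pool.Agent.Results.MP_91a79a_co.LinearFlips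

end
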