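import Pool.Agent.Lib.MP_91a79a_co.E.HypE

/-!
MP_91a79a_co: every triangulation of `n` points in general position can be transformed into a
Hamiltonian triangulation by `o(n)` simultaneous flips, uniformly.
-/

noncomputable section

namespace Pool.Agent.Results.MP_91a79a_co.SublinearFlips

open MP91a79a

/-- Q1 for point sets in general position (no three points on a line): yes. -/
theorem result :
    ∃ f : ℕ → ℕ, Filter.Tendsto (fun n : ℕ => (f n : ℝ) / n) Filter.atTop (nhds 0) ∧
      ∀ (P : Finset Pt) (T : Finset (Finset Pt)), P.Nonempty →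
        (∀ a ∈ P, ∀ b ∈ P, ∀ c ∈ P, a ≠ b → a ≠ c → b ≠ c →
          ¬ Collinear ℝ ({a, b, c} : Set Pt)) →
        IsTriangulation P T →
        ∃ (k : ℕ) (T' : Finset (Finset Pt)), k ≤ f P.card ∧ Reach P k T T' ∧
          (graph P T').IsHamiltonian := by
  obtain ⟨f, hf, hmain⟩ := main_gp
  refine ⟨f, hf.tendsto_div_nhds_zero, ?_⟩
  intro P T hne hgp hT
  have h3 : 3 ≤ P.card := by
    obtain ⟨x, hx⟩ := hne
    obtain ⟨t, ht, -⟩ := tri_mem_cover hT (subset_convexHull ℝ _ (Finset.mem_coe.2 hx))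
    rw [← hT.card t ht]
    exact Finset.card_le_card (hT.sub t ht)
  have hG : GP P := fun a ha b hb c hc h1 h2 h4 h0 =>
    hgp a ha b hb c hc h1 h2 h4 (collinear_iff.2 h0)
  obtain ⟨k, hk, T', hR, hH⟩ := hmain P T hG h3 hT
  exact ⟨k, T', hk, hR, hH⟩

end Pool.Agent.Results.MP_91a79a_co.SublinearFlips

end
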